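import Mathlib
import Pool.Agent.Y959.Rs.RealE

set_option autoImplicit false

/-!
# Montgomery's large values conjecture for all polynomials supported on a random set

Q1 asks for `∑_{t ∈ S} |D(t)|² ≤ C N^ε (N + |S|) N` for all `1`-separated `S ⊂ [0,T]`, `T ≤ N²`, and all
`D(t) = ∑_{n ≤ N} a_n n^{it}`, `|a_n| ≤ 1`. Here the support of `a` is a random set `I` of `k` integers of
`[1, N]`; the coefficients on `I` and the set `S` are arbitrary. For all but a proportion `N^(-A)` of the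
sets `I` one has, for ALL complex coefficients, ALL `T ≤ N²` and ALL `1`-separated `S ⊂ [0,T]`

`∑_{t ∈ S} |D(t)|² ≤ C N^ε (|S| + k + (k/N) min(T, N |S|^(1/2), |S| T^(1/2))) ∑ |a_n|²`,

that is, the second moment, the fourth moment and the Halász–Montgomery inequality
`(N + min(T, N |S|^(1/2), |S| T^(1/2))) ∑ |a_n|²` improve by the density `k/N` of the support, up to the
trivial term `|S|`. In particular the inequality of Q1 holds for all `|a_n| ≤ 1` supported on `I`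
if `k ≤ N^(3/4)` (for `T ≤ N²`; without randomness this is clear for `k ≤ N^(1/2)` only), and if
`k² T ≤ N³`.

The proof uses the method of Maurey and a union bound (`Pool/Agent/Y959/Rs`).
-/

namespace Pool.Agent.Results.MP_71ac24_nt.RandomSupports

open Finset

/-- The Dirichlet polynomial `D(t) = ∑_{n ∈ I} a_n n^{it}`. -/
noncomputable def D (I : Finset ℕ) (a : ℕ → ℂ) (t : ℝ) : ℂ :=
  ∑ n ∈ I, a n * Complex.exp (Complex.I * (t : ℂ) * (Real.log (n : ℝ) : ℂ))

/-- The inequalities for all coefficients on `I` and all `1`-separated sets. -/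
def Good (C ε : ℝ) (N k : ℕ) (I : Finset ℕ) : Prop :=
  ∀ (T : ℝ) (S : Finset ℝ) (a : ℕ → ℂ), 0 ≤ T → T ≤ (N : ℝ) ^ 2 → (∀ t ∈ S, 0 ≤ t ∧ t ≤ T) →
    (∀ t ∈ S, ∀ u ∈ S, t ≠ u → 1 ≤ |t - u|) →
    (∑ t ∈ S, ‖D I a t‖ ^ 2 ≤
      C * (N : ℝ) ^ ε * (S.card + k + k / N * min T (min (N * Real.sqrt S.card)
        (S.card * Real.sqrt T))) * ∑ n ∈ I, ‖a n‖ ^ 2) ∧
    ((∀ n, ‖a n‖ ≤ 1) → ((k : ℝ) ^ 4 ≤ (N : ℝ) ^ 3 ∨ (k : ℝ) ^ 2 * T ≤ (N : ℝ) ^ 3) →
      ∑ t ∈ S, ‖D I a t‖ ^ 2 ≤ C * (N : ℝ) ^ ε * (N + S.card) * N)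

open Classical in
theorem result (ε A : ℝ) (hε : 0 < ε) (hA : 0 ≤ A) :
    ∃ C : ℝ, 0 < C ∧ ∀ N k : ℕ, 1 ≤ N →
      (((powersetCard k (Icc 1 N)).filter (fun I => ¬ Good C ε N k I)).card : ℝ) ≤
        (N : ℝ) ^ (-A) * ((powersetCard k (Icc 1 N)).card : ℝ) := by
  obtain ⟨C, hC, h⟩ := Pool.Agent.Y959.Rs.ls2_count ε A hε hA
  have hC0 : 0 < C := by linarith
  refine ⟨2 * C, by positivity, ?_⟩
  intro N k hN
  refine le_trans ?_ (h N k hN)
  have hsub : (powersetCard k (Icc 1 N)).filter (fun I => ¬ Good (2 * C) ε N k I) ⊆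
      (powersetCard k (Icc 1 N)).filter (fun I => ¬ Pool.Agent.Y959.Rs.LS2 N k C ε I) := by
    intro I hI
    rw [mem_filter] at hI ⊢
    refine ⟨hI.1, fun hG => hI.2 ?_⟩
    have hIF := (mem_powersetCard.1 hI.1).1
    have hIk := (mem_powersetCard.1 hI.1).2
    intro T S a hT hTN hS hsep
    have hG0 : 0 ≤ ∑ n ∈ I, ‖a n‖ ^ 2 := sum_nonneg fun _ _ => sq_nonneg _
    constructor
    · refine (hG T S a hT hTN hS hsep).trans ?_
      apply mul_le_mul_of_nonneg_right _ hG0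
      have hm : 0 ≤ min T (min ((N : ℝ) * Real.sqrt S.card) (S.card * Real.sqrt T)) :=
        le_min hT (le_min (by positivity) (by positivity))
      apply mul_le_mul_of_nonneg_right _ (by positivity)
      apply mul_le_mul_of_nonneg_right _ (by positivity)
      linarith
    · intro ha hk
      exact Pool.Agent.Y959.Rs.ls2_q1 N k hN C ε hC0.le I hIF hIk hG T hT hTN S hS hsep a ha hk
  exact_mod_cast card_le_card hsub

end Pool.Agent.Results.MP_71ac24_nt.RandomSupports
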