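import Mathlib
import Pool.Agent.Y959.Smp.Core
import Pool.Agent.Y959.Her.Lq

set_option autoImplicit false

/-!
# Montgomery's conjecture on random subsets of `[0,T]`: a sampling theorem for large values

Choose `M` integers of `[0,T)` at random (or one element of each of `M` progressions
`s_i, s_i + 1, …, s_i + T - 1`). With high probability the following holds for ALL Dirichlet
polynomials at once: the number of the large values on the random set is, up to `N^ε`, at most the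
conjectured `N²/V²` plus the expected number `(M/T) · max_D #{t < T : |D(t)| ≥ c V}` for the worst
single polynomial. Unconditionally (fourth moment), for `T ≤ N²`: with `p = M/T` and all subsets `W`
of the random set

`∑_{t ∈ W} |D(t)|² ≤ C N^ε (N + N √(p |W|)) ∑ |a_n|²`,

so that the inequality of Q1 holds for all `W` with `|W| ≤ 1/p` or `|W| ≥ p N²`, and Montgomery's
bound `C N² / V²` for the number of the large values holds for `V ≥ p^(1/2) N^(1+ε)`.

Idea: if `|D| ≥ V` on `W` and `|W| V²` is larger than `C N²`, then after passing to a subset `W'` which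
maximises `‖∑_{W'} ± n^{it}‖² / |W'|` a signed sum over a random sample of `W'` of a small proportion
`1/K` of its elements is a Dirichlet polynomial which is large on a positive proportion of `W'`. So `W'`
lies, up to a constant proportion, in one of few containers, the sets of large values of the signed
sums of `|W'|/K` of the given vectors, and a union bound over the containers suffices.
-/

namespace Pool.Agent.Results.MP_71ac24_nt.SamplingTheorem

open Finset Pool.Agent.Y959.Smp Pool.Agent.Y959.Her Pool.Agent.TH705.DL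

/-- `D(t) = ∑_{n ≤ N} a_n n^{it}` -/
noncomputable def D (N : ℕ) (a : ℕ → ℂ) (t : ℝ) : ℂ :=
  ∑ n ∈ Icc 1 N, a n * (n : ℂ) ^ ((t : ℂ) * Complex.I)

/-- `∑_{n ≤ N} |a_n|²` -/
noncomputable def G (N : ℕ) (a : ℕ → ℂ) : ℝ := ∑ n ∈ Icc 1 N, ‖a n‖ ^ 2

/-- The points `s_i + u_i`, `u_i ∈ {0, …, T-1}`, have the property `P` for all but a proportion `δ` of
the `u ∈ {0, …, T-1}^M`. -/
def ForMost (M T : ℕ) (s : Fin M → ℝ) (δ : ℝ) (P : (Fin M → ℝ) → Prop) : Prop :=
  (Nat.card {u : Fin M → Fin T // ¬ P (fun i => s i + ((u i : ℕ) : ℝ))} : ℝ) ≤ δ * (T : ℝ) ^ M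

/-- `λ² r(λ)` is nonincreasing, and every Dirichlet polynomial with `G = G(b) > 0` has at most `r(λ) T`
values `≥ λ G^{1/2}` among the points `x, x + 1, …, x + T - 1`. -/
def Majorant (N T : ℕ) (x : ℝ) (r : ℝ → ℝ) : Prop :=
  (∀ y z : ℝ, 0 < y → y ≤ z → z ^ 2 * r z ≤ y ^ 2 * r y) ∧
  ∀ (b : ℕ → ℂ) (lam : ℝ), 0 < G N b → 0 < lam →
    (Nat.card {u : Fin T // lam * Real.sqrt (G N b) ≤ ‖D N b (x + ((u : ℕ) : ℝ))‖} : ℝ) ≤ r lam * T

theorem D_eq (N : ℕ) (b : ℕ → ℂ) (t : ℝ) :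
    D N b t = ∑ n ∈ Icc 1 N, b n * Pool.Agent.TH705.DL.ph t n := by
  unfold D
  apply sum_congr rfl
  intro n hn
  have hn0 : (n : ℂ) ≠ 0 := by exact_mod_cast (by have := (mem_Icc.1 hn).1; omega : n ≠ 0)
  congr 1
  unfold Pool.Agent.TH705.DL.ph
  rw [Complex.cpow_def_of_ne_zero hn0, ← Complex.natCast_log]
  congr 1
  push_cast
  ring

/-- transfer of the exceptional set -/
theorem forMost_of {M T : ℕ} {s : Fin M → ℝ} {δ : ℝ} {P Q : (Fin M → ℝ) → Prop}
    (h : by classical exact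
      ((univ.filter (fun ω : Fin M → Fin T => ¬ Q (fun i => s i + ((ω i : ℕ) : ℝ)))).card : ℝ) ≤
        δ * (T : ℝ) ^ Fintype.card (Fin M)) (hPQ : ∀ t, Q t → P t) : ForMost M T s δ P := by
  classical
  unfold ForMost
  rw [Fintype.card_fin] at h
  refine le_trans ?_ h
  rw [Nat.card_eq_fintype_card, Fintype.card_subtype]
  have h3 : ∀ S T' : Finset (Fin M → Fin T), S ⊆ T' → (S.card : ℝ) ≤ (T'.card : ℝ) :=
    fun S T' h => by exact_mod_cast card_le_card h
  apply h3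
  intro u hu
  rw [mem_filter] at hu ⊢
  exact ⟨mem_univ _, fun hg => hu.2 (hPQ _ hg)⟩

/-- from large values to sums of squares -/
theorem sum_sq (N M T : ℕ) (hN : 1 ≤ N) (hT : 1 ≤ T) (hTN : T ≤ N ^ 2) (ε C : ℝ) (hε : 0 < ε)
    (hC : 0 < C) (t : Fin M → ℝ) (h : LVk (Icc 1 N) N T 2 C ε t) (a : ℕ → ℂ) (W : Finset (Fin M)) :
    ∑ i ∈ W, ‖D N a (t i)‖ ^ 2 ≤
      (1 + 4 * (C + Real.sqrt (2 * C))) * (3 + 2 / ε) * (N : ℝ) ^ (3 * ε) *
        (N + N * Real.sqrt (M * W.card / T)) * G N a := by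
  classical
  have hN1 : (1 : ℝ) ≤ N := by exact_mod_cast hN
  have hN0 : (0 : ℝ) < N := by linarith
  have hT0 : (0 : ℝ) < T := by exact_mod_cast hT
  have hTN' : (T : ℝ) ≤ (N : ℝ) ^ 2 := by exact_mod_cast hTN
  have hGd : G N a = ∑ n ∈ Icc 1 N, ‖a n‖ ^ 2 := rfl
  have hWM : (W.card : ℝ) ≤ M := by
    have := card_le_univ W
    rw [Fintype.card_fin] at this
    exact_mod_cast this
  have hW0 : (0 : ℝ) ≤ W.card := Nat.cast_nonneg _
  have hM0 : (0 : ℝ) ≤ M := Nat.cast_nonneg _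
  by_cases hS : 0 < G N a
  swap
  · have h0 : G N a = 0 := le_antisymm (not_lt.1 hS) (sum_nonneg fun _ _ => sq_nonneg _)
    have h1 : ∀ i ∈ W, ‖D N a (t i)‖ ^ 2 = 0 := by
      intro i _
      rw [D_eq, sum_eq_zero_of (Icc 1 N) a hS, norm_zero]
      norm_num
    rw [sum_congr rfl h1, h0]
    simp
  obtain ⟨g, hg⟩ : ∃ g, g = G N a := ⟨_, rfl⟩
  rw [← hg] at hS ⊢
  have hV0 : 0 < Real.sqrt g := Real.sqrt_pos.2 hS
  obtain ⟨Z, hZ⟩ : ∃ Z : ℝ, Z = Real.sqrt (M * W.card / T) := ⟨_, rfl⟩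
  have hZ0 : 0 ≤ Z := by rw [hZ]; exact Real.sqrt_nonneg _
  have hZ2 : Z ^ 2 = M * W.card / T := by rw [hZ, Real.sq_sqrt (by positivity)]
  rw [← hZ]
  set d : Fin M → ℝ := fun i => ‖D N a (t i)‖ with hd
  -- upper bound for the values
  have hdmax : ∀ i, d i ≤ N * Real.sqrt g := by
    intro i
    have h1 : d i ≤ ∑ n ∈ Icc 1 N, ‖a n‖ := by
      rw [hd]
      simp only
      rw [D_eq]
      refine (norm_sum_le _ _).trans (sum_le_sum fun n _ => ?_)
      rw [norm_mul, ph_norm, mul_one]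
    refine h1.trans ?_
    calc ∑ n ∈ Icc 1 N, ‖a n‖ ≤ ∑ n ∈ Icc 1 N, Real.sqrt g := by
          apply sum_le_sum
          intro n hn
          apply Real.le_sqrt_of_sq_le
          rw [hg, hGd]
          exact single_le_sum (f := fun n => ‖a n‖ ^ 2) (fun _ _ => sq_nonneg _) hn
      _ = N * Real.sqrt g := by simp
  set J : ℕ := Nat.log 2 (2 * N) + 1 with hJ
  have hJmax : ∀ i ∈ W, d i ≤ 2 ^ J * Real.sqrt g := by
    intro i _
    have h1 : 2 * N < 2 ^ J := Nat.lt_pow_succ_log_self (by norm_num) _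
    have h2 : (2 * N : ℝ) ≤ 2 ^ J := by exact_mod_cast h1.le
    exact (hdmax i).trans (mul_le_mul_of_nonneg_right (by linarith) hV0.le)
  have hJ1 : (J : ℝ) + 1 ≤ (3 + 2 / ε) * (N : ℝ) ^ (2 * ε) := by
    have := log_nat ε hε N hN
    rw [hJ]
    push_cast
    linarith
  have hNε : 1 ≤ (N : ℝ) ^ ε := Real.one_le_rpow hN1 hε.le
  have hsC : 0 ≤ Real.sqrt (2 * C) := Real.sqrt_nonneg _
  have hsC2 : Real.sqrt (2 * C) ^ 2 = 2 * C := Real.sq_sqrt (by positivity)
  -- the large values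
  have hlv : ∀ V, Real.sqrt g ≤ V → V ^ 2 * ((W.filter (fun i => V ≤ d i)).card : ℝ) ≤
      (C + Real.sqrt (2 * C)) * (N : ℝ) ^ ε * (N + N * Z) * g := by
    intro V hV
    have hVp : 0 < V := lt_of_lt_of_le hV0 hV
    have hcW : ((W.filter (fun i => V ≤ d i)).card : ℝ) ≤ W.card := by
      exact_mod_cast card_filter_le _ _
    obtain ⟨c, hc⟩ : ∃ c : ℝ, c = ((W.filter (fun i => V ≤ d i)).card : ℝ) := ⟨_, rfl⟩
    have hc0 : 0 ≤ c := by rw [hc]; exact Nat.cast_nonneg _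
    rcases h a V (W.filter (fun i => V ≤ d i)) hVp (fun i hi => by
      have := (mem_filter.1 hi).2
      rw [hd] at this
      simp only at this
      rwa [D_eq] at this) with h1 | h1
    · rw [← hGd, ← hg, Nat.card_Icc] at h1
      have e : ((N + 1 - 1 : ℕ) : ℝ) = N := by simp
      rw [e] at h1
      refine h1.trans ?_
      apply mul_le_mul_of_nonneg_right _ hS.le
      have h2 : (N : ℝ) ≤ N + N * Z := by
        have : 0 ≤ (N : ℝ) * Z := by positivity
        linarith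
      have h3 : C ≤ (C + Real.sqrt (2 * C)) * (N : ℝ) ^ ε := by
        have : C * 1 ≤ (C + Real.sqrt (2 * C)) * (N : ℝ) ^ ε :=
          mul_le_mul (by linarith) hNε (by norm_num) (by positivity)
        linarith
      exact mul_le_mul h3 h2 hN0.le (by positivity)
    · have h2 := h1 2 (mem_Icc.2 ⟨by norm_num, le_rfl⟩)
      rw [← hGd, ← hg, Fintype.card_fin] at h2
      rw [← hc] at h2 hcW ⊢
      have h3 : (1 + (N : ℝ) ^ 2 / T) ≤ 2 * (N : ℝ) ^ 2 / T := by
        have : 1 ≤ (N : ℝ) ^ 2 / T := by rw [le_div_iff₀ hT0]; linarith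
        have e : 2 * (N : ℝ) ^ 2 / T = (N : ℝ) ^ 2 / T + (N : ℝ) ^ 2 / T := by ring
        linarith
      have h4 : V ^ (2 * 2) * c ≤ (Real.sqrt (2 * C)) ^ 2 * (N : ℝ) ^ ε * M * ((N : ℝ) ^ 2 / T) * g ^ 2 := by
        refine h2.trans ?_
        rw [hsC2]
        calc C * (N : ℝ) ^ ε * M * (1 + (N : ℝ) ^ 2 / T) * g ^ 2
            ≤ C * (N : ℝ) ^ ε * M * (2 * (N : ℝ) ^ 2 / T) * g ^ 2 := by gcongr
          _ = _ := by ring
      have h5 : (V ^ 2 * c) ^ 2 ≤ ((Real.sqrt (2 * C)) * (N : ℝ) ^ ε * (N * Z) * g) ^ 2 := by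
        calc (V ^ 2 * c) ^ 2 = (V ^ (2 * 2) * c) * c := by ring
          _ ≤ ((Real.sqrt (2 * C)) ^ 2 * (N : ℝ) ^ ε * M * ((N : ℝ) ^ 2 / T) * g ^ 2) * W.card :=
              mul_le_mul h4 hcW hc0 (by positivity)
          _ = (Real.sqrt (2 * C)) ^ 2 * (N : ℝ) ^ ε * (N ^ 2 * Z ^ 2) * g ^ 2 := by
              rw [hZ2]
              ring
          _ ≤ (Real.sqrt (2 * C)) ^ 2 * ((N : ℝ) ^ ε * (N : ℝ) ^ ε) * (N ^ 2 * Z ^ 2) * g ^ 2 := by
              have : (N : ℝ) ^ ε ≤ (N : ℝ) ^ ε * (N : ℝ) ^ ε := by nlinarith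
              gcongr
          _ = _ := by ring
      have h6 := le_of_sq_le_sq h5 (by positivity)
      refine h6.trans ?_
      apply mul_le_mul_of_nonneg_right _ hS.le
      have h7 : (N : ℝ) * Z ≤ N + N * Z := by linarith
      exact mul_le_mul (mul_le_mul_of_nonneg_right (by linarith) (by positivity)) h7
        (by positivity) (by positivity)
  have hdy := dyadic W d (Real.sqrt g) _ hV0 J hJmax hlv
  have hsmall : ∑ i ∈ W.filter (fun i => ¬ Real.sqrt g ≤ d i), d i ^ 2 ≤ (N * Z) * g := by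
    calc ∑ i ∈ W.filter (fun i => ¬ Real.sqrt g ≤ d i), d i ^ 2
        ≤ ∑ i ∈ W.filter (fun i => ¬ Real.sqrt g ≤ d i), g := by
          apply sum_le_sum
          intro i hi
          have h1 := (mem_filter.1 hi).2
          push Not at h1
          calc d i ^ 2 ≤ Real.sqrt g ^ 2 := pow_le_pow_left₀ (norm_nonneg _) h1.le 2
            _ = g := Real.sq_sqrt hS.le
      _ = ((W.filter (fun i => ¬ Real.sqrt g ≤ d i)).card : ℝ) * g := by rw [sum_const, nsmul_eq_mul]
      _ ≤ W.card * g := by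
          apply mul_le_mul_of_nonneg_right _ hS.le
          exact_mod_cast card_filter_le _ _
      _ ≤ (N * Z) * g := by
          apply mul_le_mul_of_nonneg_right _ hS.le
          apply le_of_sq_le_sq _ (by positivity)
          rw [mul_pow, hZ2, mul_div_assoc', le_div_iff₀ hT0]
          have h8 : (W.card : ℝ) ^ 2 * T ≤ (M * W.card) * (N : ℝ) ^ 2 := by
            have h9 : (W.card : ℝ) ^ 2 ≤ M * W.card := by nlinarith
            exact mul_le_mul h9 hTN' hT0.le (by positivity)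
          linarith
  rw [← sum_filter_add_sum_filter_not W (fun i => Real.sqrt g ≤ d i) (fun i => d i ^ 2)]
  have hQ0 : 0 ≤ (N + N * Z) * g := by positivity
  have h3ε : (N : ℝ) ^ ε * (N : ℝ) ^ (2 * ε) = (N : ℝ) ^ (3 * ε) := by
    rw [← Real.rpow_add hN0]
    congr 1
    ring
  have hN3ε : 1 ≤ (N : ℝ) ^ (3 * ε) := Real.one_le_rpow hN1 (by positivity)
  have hb : ∑ i ∈ W.filter (fun i => Real.sqrt g ≤ d i), d i ^ 2 ≤
      4 * (C + Real.sqrt (2 * C)) * (3 + 2 / ε) * (N : ℝ) ^ (3 * ε) * ((N + N * Z) * g) := by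
    refine hdy.trans ?_
    calc 4 * ((C + Real.sqrt (2 * C)) * (N : ℝ) ^ ε * (N + N * Z) * g) * ((J : ℝ) + 1)
        ≤ 4 * ((C + Real.sqrt (2 * C)) * (N : ℝ) ^ ε * (N + N * Z) * g) *
            ((3 + 2 / ε) * (N : ℝ) ^ (2 * ε)) :=
          mul_le_mul_of_nonneg_left hJ1 (by positivity)
      _ = 4 * (C + Real.sqrt (2 * C)) * (3 + 2 / ε) * ((N : ℝ) ^ ε * (N : ℝ) ^ (2 * ε)) *
            ((N + N * Z) * g) := by ring
      _ = _ := by rw [h3ε]
  have hs : (N * Z) * g ≤ 1 * (3 + 2 / ε) * (N : ℝ) ^ (3 * ε) * ((N + N * Z) * g) := by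
    have h1 : (N * Z) * g ≤ (N + N * Z) * g := mul_le_mul_of_nonneg_right (by linarith) hS.le
    have h2 : 1 ≤ 1 * (3 + 2 / ε) * (N : ℝ) ^ (3 * ε) := by
      have h4 : 1 ≤ 1 * (3 + 2 / ε) := by
        have : 0 < 2 / ε := by positivity
        linarith
      exact one_le_mul_of_one_le_of_one_le h4 hN3ε
    nlinarith
  calc _ ≤ _ := add_le_add hb (hsmall.trans hs)
    _ = _ := by ring

/-- **Main theorem.** For `ε > 0` and `A, B ≥ 0` there is `C` such that, for `1 ≤ N`: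

(1) (`M ≤ N^B`, any `T`, any majorant `r` for the progressions `s_i, …, s_i + T - 1`) for all but
`N^(-A) T^M` of the `u`, all `a`, all `V > 0` and all `W` with `|D(t_i)| ≥ V` for `i ∈ W`,
`|W| ≤ C N G V^(-2)` or `|W| ≤ C N^ε M r(V / (8 √G))`;

(2) (`M ≤ N^B`, `1 ≤ T ≤ N²`) for all but `N^(-A) T^M` of the `u` and for all `a` and `W`:
`∑_{i ∈ W} |D(t_i)|² ≤ C N^ε (N + N √(M|W|/T)) G`, which is `≤ 2 C N^ε (N + |W|) G` if `M |W| ≤ T` or
`M N² ≤ T |W|`; and `|W| V² ≤ C N G` if `|D(t_i)| ≥ V` on `W` and `V² T ≥ C N^(1+ε) M G`. -/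
theorem result (ε A B : ℝ) (hε : 0 < ε) (hA : 0 ≤ A) (hB : 0 ≤ B) :
    ∃ C : ℝ, 0 < C ∧ ∀ N M T : ℕ, 1 ≤ N → (M : ℝ) ≤ (N : ℝ) ^ B → ∀ s : Fin M → ℝ,
      (∀ r : ℝ → ℝ, (∀ i, Majorant N T (s i) r) → ForMost M T s ((N : ℝ) ^ (-A)) (fun t =>
        ∀ (a : ℕ → ℂ) (V : ℝ) (W : Finset (Fin M)), 0 < V → (∀ i ∈ W, V ≤ ‖D N a (t i)‖) →
          V ^ 2 * W.card ≤ C * N * G N a ∨
            (0 < G N a ∧ (W.card : ℝ) ≤ C * (N : ℝ) ^ ε * M * r (V / Real.sqrt (G N a) / 8)))) ∧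
      (1 ≤ T → T ≤ N ^ 2 → ForMost M T s ((N : ℝ) ^ (-A)) (fun t =>
        ∀ (a : ℕ → ℂ) (W : Finset (Fin M)),
          (∑ i ∈ W, ‖D N a (t i)‖ ^ 2 ≤
            C * (N : ℝ) ^ ε * (N + N * Real.sqrt (M * W.card / T)) * G N a) ∧
          ((M * W.card ≤ T ∨ M * N ^ 2 ≤ T * W.card) →
            ∑ i ∈ W, ‖D N a (t i)‖ ^ 2 ≤ 2 * C * (N : ℝ) ^ ε * (N + W.card) * G N a) ∧
          ∀ V : ℝ, 0 < V → (∀ i ∈ W, V ≤ ‖D N a (t i)‖) →
            C * (N : ℝ) ^ (1 + ε) * M * G N a ≤ V ^ 2 * T → V ^ 2 * W.card ≤ C * N * G N a)) := by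
  classical
  obtain ⟨C1, hC1, hk⟩ := core_k (ε / 3) A B (by positivity) hA hB 2 (by norm_num)
  have hCC := CC_ge ε A B hε hA hB
  obtain ⟨C2, hC2⟩ : ∃ C2, C2 = (1 + 4 * (C1 + Real.sqrt (2 * C1))) * (3 + 2 / (ε / 3)) := ⟨_, rfl⟩
  have hC2p : 0 < C2 := by
    rw [hC2]
    have : 0 ≤ Real.sqrt (2 * C1) := Real.sqrt_nonneg _
    positivity
  obtain ⟨C, hC⟩ : ∃ C, C = 3 * CC ε A B + 192 + 2 * C1 + C2 := ⟨_, rfl⟩
  have hC0 : 0 < C := by rw [hC]; linarith
  have hCr : 3 * CC ε A B ≤ C := by rw [hC]; linarith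
  have hC192 : 192 ≤ C := by rw [hC]; linarith
  have hCC1 : 2 * C1 ≤ C := by rw [hC]; linarith
  have hCC2 : C2 ≤ C := by rw [hC]; linarith
  refine ⟨C, hC0, ?_⟩
  intro N M T hN hM s
  have hN1 : (1 : ℝ) ≤ N := by exact_mod_cast hN
  have hN0 : (0 : ℝ) < N := by linarith
  have hM' : ((Fintype.card (Fin M) : ℕ) : ℝ) ≤ (N : ℝ) ^ B := by rw [Fintype.card_fin]; exact hM
  have hIc : ((Icc 1 N).card : ℝ) = N := by rw [Nat.card_Icc]; simp
  constructor
  · intro r hr
    rcases Nat.eq_zero_or_pos M with hM0 | hMpos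
    · subst hM0
      unfold ForMost
      have hz : IsEmpty {u : Fin 0 → Fin T // ¬ (fun t : Fin 0 → ℝ =>
        ∀ (a : ℕ → ℂ) (V : ℝ) (W : Finset (Fin 0)), 0 < V → (∀ i ∈ W, V ≤ ‖D N a (t i)‖) →
          V ^ 2 * W.card ≤ C * N * G N a ∨
            (0 < G N a ∧ (W.card : ℝ) ≤ C * (N : ℝ) ^ ε * (0 : ℕ) * r (V / Real.sqrt (G N a) / 8)))
          (fun i => s i + ((u i : ℕ) : ℝ))} := by
        constructor
        rintro ⟨u, hu⟩
        apply hu
        intro a V W hV _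
        left
        have hW : W.card = 0 := by
          have := card_le_univ W
          rw [Fintype.card_fin] at this
          omega
        rw [hW]
        have : 0 ≤ G N a := sum_nonneg fun _ _ => sq_nonneg _
        simp only [Nat.cast_zero, mul_zero]
        positivity
      rw [Nat.card_of_isEmpty]
      push_cast
      positivity
    have i0 : Fin M := ⟨0, hMpos⟩
    have h1 := core_r ε A B hε hA hB N (Fin M) hN hM' T (Icc 1 N) s r (hr i0).1 (by
      intro i y lam hy hlam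
      have hG : G N (co (Icc 1 N) y) = ‖y‖ ^ 2 := norm_co _ y
      have hyp : 0 < ‖y‖ := norm_pos_iff.2 hy
      have h2 := (hr i).2 (co (Icc 1 N) y) lam (by rw [hG]; positivity) hlam
      rw [Nat.card_eq_fintype_card, Fintype.card_subtype] at h2
      refine le_trans ?_ h2
      have h3 : ∀ S T' : Finset (Fin T), S ⊆ T' → (S.card : ℝ) ≤ (T'.card : ℝ) :=
        fun S T' h => by exact_mod_cast card_le_card h
      apply h3
      intro u hu
      rw [mem_filter] at hu ⊢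
      refine ⟨mem_univ _, ?_⟩
      rw [hG, Real.sqrt_sq hyp.le, D_eq, ← inner_vec]
      exact hu.2)
    refine forMost_of h1 ?_
    intro t ht a V W hV hW
    rcases ht a V W hV (fun i hi => by rw [← D_eq]; exact hW i hi) with h2 | ⟨h2, h3⟩
    · left
      rw [hIc] at h2
      refine h2.trans ?_
      have hG0 : 0 ≤ G N a := sum_nonneg fun _ _ => sq_nonneg _
      exact mul_le_mul_of_nonneg_right (mul_le_mul_of_nonneg_right hCr hN0.le) hG0
    · right
      refine ⟨h2, h3.trans ?_⟩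
      rw [Fintype.card_fin]
      have hGd : G N a = ∑ n ∈ Icc 1 N, ‖a n‖ ^ 2 := rfl
      rw [← hGd] at h2 h3 ⊢
      rcases lt_or_ge (r (V / Real.sqrt (G N a) / 8)) 0 with hneg | hnn
      · exfalso
        have h5 : (0 : ℝ) ≤ W.card := Nat.cast_nonneg _
        have hMr : (0 : ℝ) < M := by exact_mod_cast hMpos
        have h6 : 48 * (4 * (N : ℝ) ^ ε) * (Fintype.card (Fin M) : ℕ) *
            r (V / Real.sqrt (G N a) / 8) < 0 := by
          rw [Fintype.card_fin]
          have : 0 < 48 * (4 * (N : ℝ) ^ ε) * (M : ℝ) := by positivity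
          exact mul_neg_of_pos_of_neg this hneg
        linarith [h3]
      · apply mul_le_mul_of_nonneg_right _ hnn
        apply mul_le_mul_of_nonneg_right _ (Nat.cast_nonneg _)
        have : 0 < (N : ℝ) ^ ε := by positivity
        nlinarith
  · intro hT hTN
    have h1 := hk N (Fin M) hN hM' T hT (Icc 1 N) (Subset.refl _) s
    have hT0 : (0 : ℝ) < T := by exact_mod_cast hT
    refine forMost_of h1 ?_
    intro t ht a W
    have hG0 : 0 ≤ G N a := sum_nonneg fun _ _ => sq_nonneg _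
    have hGd : G N a = ∑ n ∈ Icc 1 N, ‖a n‖ ^ 2 := rfl
    have hNε : 0 < (N : ℝ) ^ ε := by positivity
    have h2 : ∑ i ∈ W, ‖D N a (t i)‖ ^ 2 ≤
            C * (N : ℝ) ^ ε * (N + N * Real.sqrt (M * W.card / T)) * G N a := by
      have h3 := sum_sq N M T hN hT hTN (ε / 3) C1 (by positivity) hC1 t ht a W
      refine h3.trans ?_
      have e : 3 * (ε / 3) = ε := by ring
      rw [e, ← hC2]
      apply mul_le_mul_of_nonneg_right _ hG0
      apply mul_le_mul_of_nonneg_right _ (by positivity)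
      exact mul_le_mul_of_nonneg_right hCC2 hNε.le
    refine ⟨h2, ?_, ?_⟩
    · intro hcase
      refine h2.trans ?_
      apply mul_le_mul_of_nonneg_right _ hG0
      have h3 : (N : ℝ) + N * Real.sqrt (M * W.card / T) ≤ 2 * (N + W.card) := by
        have hW0 : (0 : ℝ) ≤ W.card := Nat.cast_nonneg _
        rcases hcase with hc | hc
        · have h4 : (M * W.card / T : ℝ) ≤ 1 := by
            rw [div_le_one hT0]
            exact_mod_cast hc
          have h5 : Real.sqrt (M * W.card / T) ≤ 1 := Real.sqrt_le_one.2 h4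
          nlinarith
        · have h4 : (N : ℝ) * Real.sqrt (M * W.card / T) ≤ W.card := by
            apply le_of_sq_le_sq _ hW0
            rw [mul_pow, Real.sq_sqrt (by positivity), mul_div_assoc', div_le_iff₀ hT0]
            have h5 : (M : ℝ) * (N : ℝ) ^ 2 ≤ T * W.card := by exact_mod_cast hc
            nlinarith
          linarith
      calc C * (N : ℝ) ^ ε * (N + N * Real.sqrt (M * W.card / T))
          ≤ C * (N : ℝ) ^ ε * (2 * (N + W.card)) := mul_le_mul_of_nonneg_left h3 (by positivity)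
        _ = 2 * C * (N : ℝ) ^ ε * (N + W.card) := by ring
    · intro V hV hW hVT
      rcases ht a V W hV (fun i hi => by rw [← D_eq]; exact hW i hi) with h3 | h3
      · rw [hIc] at h3
        refine h3.trans ?_
        apply mul_le_mul_of_nonneg_right _ hG0
        exact mul_le_mul_of_nonneg_right (by linarith) hN0.le
      · have h4 := h3 2 (mem_Icc.2 ⟨by norm_num, le_rfl⟩)
        rw [Fintype.card_fin, ← hGd] at h4
        have hTN' : (T : ℝ) ≤ (N : ℝ) ^ 2 := by exact_mod_cast hTN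
        have h5 : (1 + (N : ℝ) ^ 2 / T) * T ≤ 2 * (N : ℝ) ^ 2 := by
          rw [add_mul, div_mul_cancel₀ _ hT0.ne']
          linarith
        have hNε3 : (N : ℝ) ^ (ε / 3) ≤ (N : ℝ) ^ ε :=
          Real.rpow_le_rpow_of_exponent_le hN1 (by linarith)
        have hN1ε : (N : ℝ) ^ (1 + ε) = N * (N : ℝ) ^ ε := by
          rw [Real.rpow_add hN0, Real.rpow_one]
        -- V^4 |W| T ≤ 2 C1 N^ε M N^2 G^2 ≤ N G (V^2 T)
        have h6 : (V ^ 2 * T) * (V ^ 2 * W.card) ≤ (V ^ 2 * T) * (N * G N a) := by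
          calc (V ^ 2 * T) * (V ^ 2 * W.card) = (V ^ (2 * 2) * W.card) * T := by ring
            _ ≤ (C1 * (N : ℝ) ^ (ε / 3) * M * (1 + (N : ℝ) ^ 2 / T) * G N a ^ 2) * T :=
                mul_le_mul_of_nonneg_right h4 hT0.le
            _ = C1 * (N : ℝ) ^ (ε / 3) * M * G N a ^ 2 * ((1 + (N : ℝ) ^ 2 / T) * T) := by ring
            _ ≤ C1 * (N : ℝ) ^ ε * M * G N a ^ 2 * (2 * (N : ℝ) ^ 2) := by gcongr
            _ = (2 * C1 * (N * (N : ℝ) ^ ε) * M * G N a) * (N * G N a) := by ring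
            _ ≤ (C * (N * (N : ℝ) ^ ε) * M * G N a) * (N * G N a) := by gcongr
            _ ≤ (V ^ 2 * T) * (N * G N a) := by
                rw [hN1ε] at hVT
                exact mul_le_mul_of_nonneg_right hVT (by positivity)
        have h7 : V ^ 2 * W.card ≤ N * G N a := le_of_mul_le_mul_left h6 (by positivity)
        refine h7.trans ?_
        have h8 : 0 ≤ (N : ℝ) * G N a := by positivity
        have h9 : (1 : ℝ) ≤ C := by linarith
        calc (N : ℝ) * G N a = 1 * (N * G N a) := by ring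
          _ ≤ C * (N * G N a) := mul_le_mul_of_nonneg_right h9 h8
          _ = C * N * G N a := by ring

end Pool.Agent.Results.MP_71ac24_nt.SamplingTheorem
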